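import Pool.Agent.Helper20_TWS.Stmts

/-! TWS module CLO: an arc at another gap does not separate. -/

set_option autoImplicit false

namespace Pool.Agent.TWS.H90

open Pool.Agent.TWS Pool.Agent.TOR Pool.Agent.TOR.H59

variable {α : Type} [DecidableEq α]

/-- the chord `a b` does not separate: transitivity -/
theorem nlo_trans (R : Rib α) {a b p q r : Om α} (hp : p ≠ a ∧ p ≠ b) (hq : q ≠ a ∧ q ≠ b)
    (hr : r ≠ a ∧ r ≠ b) (h1 : ¬ Lo R a b p q) (h2 : ¬ Lo R a b q r) : ¬ Lo R a b p r := by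
  by_cases hab : a = b
  · subst hab
    rintro (h | h)
    · exact (Cyc.ne31 h.1) rfl
    · exact (Cyc.ne31 h.1) rfl
  have inj : ∀ {x y : Om α}, x ≠ y → okey R x ≠ okey R y := fun h h' => h (okey_inj R h')
  unfold Lo at *
  rw [lk_iff (inj hp.1) (inj hp.2) (inj hq.1) (inj hq.2) (inj hab)] at h1
  rw [lk_iff (inj hq.1) (inj hq.2) (inj hr.1) (inj hr.2) (inj hab)] at h2
  rw [lk_iff (inj hp.1) (inj hp.2) (inj hr.1) (inj hr.2) (inj hab)]
  tauto

theorem nlo_symm (R : Rib α) {a b p q : Om α} (h : ¬ Lo R a b p q) : ¬ Lo R a b q p := by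
  rwa [lo_swap']

theorem nlo_refl (R : Rib α) (a b p : Om α) : ¬ Lo R a b p p := by
  unfold Lo
  rintro (h | h)
  · exact Cyc.asymm h.1 h.2.rot.rot
  · exact Cyc.asymm h.1 h.2.rot.rot

/-- the lifts of the gaps `i`, `i+1` at one vertex are neighbours -/
theorem nlo_next (R : Rib α) (i : ℕ) (u : FreeGroup α) {a b : Om α}
    (ha : a.2 ≠ i ∧ a.2 ≠ i + 1) (hb : b.2 ≠ i ∧ b.2 ≠ i + 1) :
    ¬ Lo R a b (u, i) (u, i + 1) := by
  have key1 : ∀ x : Om α, x.2 ≠ i → x.2 ≠ i + 1 →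
      (Cyc (okey R (u, i + 1)) (okey R x) (okey R (u, i)) ↔ False) := by
    intro x h1 h2
    simp only [iff_false]
    rintro (h | h | h)
    · rw [okey_lt, okey_lt] at h
      simp only at h
      rcases h with ⟨h3 | h3, h4 | h4⟩
      · exact lt_asymm h3 h4
      · rw [h4.1] at h3; exact lt_irrefl _ h3
      · rw [← h3.1] at h4; exact lt_irrefl _ h4
      · omega
    · rw [okey_lt, okey_lt] at h
      simp only [lt_irrefl, false_or] at h
      omega
    · rw [okey_lt, okey_lt] at h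
      simp only [lt_irrefl, false_or] at h
      omega
  rw [lo_comm, lo_swap]
  have ne : ∀ {x y : Om α}, x.2 ≠ y.2 → okey R x ≠ okey R y :=
    fun h h' => h (congrArg Prod.snd (okey_inj R h'))
  unfold Lo
  rw [lk_iff (ne ha.2) (ne ha.1) (ne hb.2) (ne hb.1) (ne (by simp)), key1 a ha.1 ha.2,
    key1 b hb.1 hb.2]
  simp

theorem clo_gen (R : Rib α) (i j : ℕ) (m : FreeGroup α) (A A' : Set (FreeGroup α)) (hi : j ≠ i)
    (hi' : j ≠ i + 1) (hA : ∀ k ∈ A, Cmp R j m i k) (hA' : ∀ k ∈ A', Cmp R j m (i + 1) k) :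
    ∀ u ∈ Subgroup.closure (A ∪ A'), Cmp R j m i u := by
  have key2 : ∀ u ∈ Subgroup.closure (A ∪ A'), ∀ g v : FreeGroup α,
      ¬ Lo R (g, j) (g * m, j) (v, i) (v * u, i) := by
    intro u hu
    have n1 : ∀ g v : FreeGroup α, ((v, i) : Om α) ≠ (g, j) := by
      intro g v h; exact hi (congrArg Prod.snd h).symm
    have n2 : ∀ g v : FreeGroup α, ((v, i + 1) : Om α) ≠ (g, j) := by
      intro g v h; exact hi' (congrArg Prod.snd h).symm
    have nx : ∀ g v : FreeGroup α, ¬ Lo R (g, j) (g * m, j) (v, i) (v, i + 1) := fun g v =>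
      nlo_next R i v ⟨hi, hi'⟩ ⟨hi, hi'⟩
    induction hu using Subgroup.closure_induction with
    | mem k hk =>
      intro g v
      rcases hk with hk | hk
      · exact (hA k hk).all g v
      · have h1 := (hA' k hk).all g v
        refine nlo_trans R ⟨n1 _ _, n1 _ _⟩ ⟨n2 _ _, n2 _ _⟩ ⟨n1 _ _, n1 _ _⟩ (nx g v) ?_
        exact nlo_trans R ⟨n2 _ _, n2 _ _⟩ ⟨n2 _ _, n2 _ _⟩ ⟨n1 _ _, n1 _ _⟩ h1
          (nlo_symm R (nx g (v * k)))
    | one => intro g v; rw [mul_one]; exact nlo_refl R _ _ _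
    | mul x y _ _ hx hy =>
      intro g v
      rw [← mul_assoc]
      exact nlo_trans R ⟨n1 _ _, n1 _ _⟩ ⟨n1 _ _, n1 _ _⟩ ⟨n1 _ _, n1 _ _⟩ (hx g v)
        (hy g (v * x))
    | inv x _ hx =>
      intro g v
      have := hx g (v * x⁻¹)
      rw [inv_mul_cancel_right] at this
      exact nlo_symm R this
  intro u hu g
  have := key2 u hu 1 g
  rwa [one_mul] at this

theorem clo : CloS := by
  intro n i j m A A' hi hi' hA hA'
  exact clo_gen (sR n) i j m A A' hi hi' hA hA'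

end Pool.Agent.TWS.H90
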