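import Pool.Agent.Helper20_TWS.Stmts

/-! TWS module EXI: existence of arcs at a free gap. -/

set_option autoImplicit false

namespace Pool.Agent.TWS.H90

open Pool.Agent.TWS Pool.Agent.TOR Pool.Agent.TOR.H59

/-- compatibility depends only on the order of the gaps -/
theorem gap_ord (hG : GapS) {n i j i' j' : ℕ} {k m : Fn n} (h1 : i < j ↔ i' < j')
    (h2 : j < i ↔ j' < i') (h : Cmp (sR n) i k j m) : Cmp (sR n) i' k j' m := by
  rcases lt_trichotomy i j with h3 | h3 | h3
  · exact (hG n i j i' j' k m h3 (h1.1 h3)).1 h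
  · subst h3
    have h4 : i' = j' := by
      rcases lt_trichotomy i' j' with h5 | h5 | h5
      · exact (lt_irrefl _ (h1.2 h5)).elim
      · exact h5
      · exact (lt_irrefl _ (h2.2 h5)).elim
    subst h4
    exact cmp_same h
  · exact ((hG n j i j' i' m k h3 (h2.1 h3)).1 h.symm).symm

/-- conjugation by `zeta` -/
noncomputable def cz (n : ℕ) : MulAut (FreeGroup (Fin 2 × Fin n)) := MulAut.conj (zeta n)

theorem cz_zeta (n : ℕ) : cz n (zeta n) = zeta n := by
  simp [cz]

theorem cz_apply (n : ℕ) (k : FreeGroup (Fin 2 × Fin n)) :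
    cz n k = zeta n * k * (zeta n)⁻¹ := by
  simp [cz]

/-- the arc conjugated by `zeta` -/
noncomputable def ca {n : ℕ} (hn : 0 < n) (v : Av n) : Av n :=
  ⟨cz n v.1, (arc_std hn (cz n) (cz_zeta n)).2 v.2⟩

theorem cls_ca {n : ℕ} (hn : 0 < n) (v : Av n) : cla (ca hn v) = cla v := by
  unfold cla ca cls
  simp only [cz_apply, map_mul, map_inv]
  rw [mul_comm (hc n (zeta n)), mul_assoc, mul_inv_cancel, mul_one]

/-- moving the gaps above `i` below -/
noncomputable def mvg {n : ℕ} (hn : 0 < n) (i B : ℕ) (p : ℕ × Av n) : ℕ × Av n :=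
  if p.1 < i then (p.1 + B, p.2) else (p.1 - i - 1, ca hn p.2)

theorem exi (hG : GapS) (hR : RotS) (hS : SrgS) (hE : ExtS) : ExiS := by
  intro n τ κ i hτ hκ hC hτi hκi hI N' hN'
  rcases Nat.eq_zero_or_pos n with rfl | hn
  · obtain ⟨e, _, he⟩ := hN'
    exact (he (by
      have : e = 0 := by ext x; exact x.2.elim0
      rw [this]; exact N'.zero_mem)).elim
  obtain ⟨B, hB⟩ : ∃ B : ℕ, ∀ p ∈ τ, p.1 < B := by
    obtain ⟨B, hB⟩ := (hτ.image Prod.fst).bddAbove
    exact ⟨B + 1, fun p hp => Nat.lt_succ_of_le (hB ⟨p, hp, rfl⟩)⟩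
  have hcl : ∀ p : ℕ × Av n, cla (mvg hn i B p).2 = cla p.2 := by
    intro p
    unfold mvg
    split_ifs
    · rfl
    · exact cls_ca hn p.2
  -- rotation
  have rot : ∀ {a b a' b' : ℕ} {k m : Fn n}, a < b → b' < a' →
      (Cmp (sR n) a k b m ↔ Cmp (sR n) a' k b' (cz n m)) := by
    intro a b a' b' k m hab hba
    rw [hG n a b 0 1 k m hab Nat.zero_lt_one, hR n hn k m, ← cz_apply]
    constructor
    · exact fun h => gap_ord hG (by omega) (by omega) h
    · exact fun h => gap_ord hG (by omega) (by omega) h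
  have conj : ∀ {a b : ℕ} {k m : Fn n}, Cmp (sR n) a (cz n k) b (cz n m) ↔ Cmp (sR n) a k b m :=
    fun {a b k m} => cmp_std hn (cz n) (cz_zeta n)
  have hτC : ∀ p ∈ mvg hn i B '' τ, ∀ q ∈ mvg hn i B '' τ, Ca n p q := by
    rintro _ ⟨p, hp, rfl⟩ _ ⟨q, hq, rfl⟩
    have h0 : Cmp (sR n) p.1 p.2.1 q.1 q.2.1 := hC p (Or.inl hp) q (Or.inl hq)
    have hpi := hτi p hp
    have hqi := hτi q hq
    have hpB := hB p hp
    have hqB := hB q hq
    unfold Ca mvg
    by_cases h1 : p.1 < i
    · by_cases h2 : q.1 < i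
      · rw [if_pos h1, if_pos h2]
        exact gap_ord hG (by omega) (by omega) h0
      · rw [if_pos h1, if_neg h2]
        exact (rot (by omega) (by omega)).1 h0
    · by_cases h2 : q.1 < i
      · rw [if_neg h1, if_pos h2]
        exact ((rot (by omega) (by omega)).1 h0.symm).symm
      · rw [if_neg h1, if_neg h2]
        exact conj.2 (gap_ord hG (by omega) (by omega) h0)
  obtain ⟨v, hv, hv'⟩ := hE n (mvg hn i B '' τ) (i + B) N' (hτ.image _) hτC
    (by
      rintro _ ⟨p, hp, rfl⟩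
      have hpi := hτi p hp
      have hpB := hB p hp
      unfold mvg
      split_ifs with h1
      · simpa using h1
      · simp only; omega)
    (by
      refine LinearIndepOn.image_of_comp (mvg hn i B) (fun p : ℕ × Av n => cla p.2) ?_
      have : (fun p : ℕ × Av n => cla p.2) ∘ mvg hn i B = fun p : ℕ × Av n => cla p.2 := by
        funext p; exact hcl p
      rw [this]
      exact hI)
    (by
      obtain ⟨e, h1, h2⟩ := hN'
      refine ⟨e, ?_, h2⟩
      rintro _ ⟨p, hp, rfl⟩
      rw [hcl]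
      exact h1 p hp)
  have hv2 : ∀ p ∈ τ, Ca n p (i, v) := by
    intro p hp
    have h0 := hv _ ⟨p, hp, rfl⟩
    have hpi := hτi p hp
    have hpB := hB p hp
    unfold Ca mvg at h0
    unfold Ca
    by_cases h1 : p.1 < i
    · rw [if_pos h1] at h0
      exact gap_ord hG (by simp only; omega) (by simp only; omega) h0
    · rw [if_neg h1] at h0
      exact ((rot (by simp only; omega) (by simp only; omega)).2 h0.symm).symm
  obtain ⟨w, hw, hw'⟩ := hS n τ κ i N' hτ hκ hC hκi ⟨v, hv2, hv'⟩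
  refine ⟨w, ?_, hw'⟩
  have hww : Ca n (i, w) (i, w) := cmp_same w.2.2.2
  intro p hp q hq
  rcases hp with hp | hp
  · rcases hq with hq | hq
    · rw [hp, hq]; exact hww
    · rw [hp]; exact (hw q hq).symm
  · rcases hq with hq | hq
    · rw [hq]; exact hw p hp
    · exact hC p hp q hq

end Pool.Agent.TWS.H90
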